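import Mathlib
import Pool.Agent.H56.Mis

/-!
# A finite misère quotient, generated by one game, with a maximal subgroup without P-positions

Games are finite game trees. `K` is the game `{3g + h, s, s + g, s + 4g + h}` with `s = {0}`,
`g = {0, s}`, `h = {s, s + 2g}`, and the set of games is the smallest set that contains `K` and is
closed under sums and options. (The counterexample is the one found by helper22 for the frozen
statement; here it is realised by actual games.)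
-/

set_option autoImplicit false

namespace Pool.Agent.Results.MP_1dd9c6_co.OneGenerator

open H56.Mis

/-- A finite impartial game: finitely many options, each a finite impartial game. -/
inductive Game : Type
  | mk (n : ℕ) (opt : Fin n → Game) : Game

namespace Game

/-- The set of the options of a game. -/
def options : Game → Set Game
  | mk _ f => Set.range f

/-- Auxiliary to `add`: `F i` is the addition of the option number `i` of the first summand. -/
def addAux (n : ℕ) (F : Fin n → Game → Game) : Game → Game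
  | mk m g => mk (n + m) (Fin.append (fun i => F i (mk m g)) (fun j => addAux n F (g j)))

/-- The disjoint sum `G + H`: its options are the `G' + H` and the `G + H'`, see `options_add`. -/
def add : Game → Game → Game
  | mk n f => addAux n (fun i => add (f i))

/-- The misère P-positions: the player not about to move wins, where a player who cannot move wins.
There is an option, and no option is a P-position. -/
def IsP : Game → Prop
  | mk n f => 0 < n ∧ ∀ i, ¬ IsP (f i)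

end Game

/-- A set of games closed under sums and options. -/
structure Closed (A : Set Game) : Prop where
  add : ∀ G ∈ A, ∀ H ∈ A, G.add H ∈ A
  opt : ∀ G ∈ A, ∀ G' ∈ G.options, G' ∈ A

/-- The smallest set of games that is closed under sums and options and contains `K`. -/
def generated (K : Game) : Set Game := {G | ∀ A : Set Game, Closed A → K ∈ A → G ∈ A}

/-- Indistinguishability `G ≡ H` modulo `A`; the misère quotient of `A` is `A/≡`. -/
def Indist (A : Set Game) (G H : Game) : Prop := ∀ X ∈ A, (G.add X).IsP ↔ (H.add X).IsP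

theorem add_mk (n m : ℕ) (f : Fin n → Game) (g : Fin m → Game) :
    (Game.mk n f).add (Game.mk m g) = Game.mk (n + m)
      (Fin.append (fun i => (f i).add (Game.mk m g)) (fun j => (Game.mk n f).add (g j))) := rfl

theorem options_add (G H : Game) : (G.add H).options =
    (fun G' => Game.add G' H) '' G.options ∪ (fun H' => G.add H') '' H.options := by
  obtain ⟨n, f⟩ := G
  obtain ⟨m, g⟩ := H
  rw [add_mk]
  ext u
  constructor
  · rintro ⟨i, rfl⟩
    refine Fin.addCases (fun i => ?_) (fun j => ?_) i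
    · rw [Fin.append_left]
      exact Or.inl ⟨f i, ⟨i, rfl⟩, rfl⟩
    · rw [Fin.append_right]
      exact Or.inr ⟨g j, ⟨j, rfl⟩, rfl⟩
  · rintro (⟨_, ⟨i, rfl⟩, rfl⟩ | ⟨_, ⟨j, rfl⟩, rfl⟩)
    · exact ⟨Fin.castAdd m i, Fin.append_left _ _ i⟩
    · exact ⟨Fin.natAdd n j, Fin.append_right _ _ j⟩

theorem isP_iff (G : Game) : G.IsP ↔ G.options.Nonempty ∧ ∀ G' ∈ G.options, ¬ G'.IsP := by
  obtain ⟨n, f⟩ := G
  constructor
  · rintro ⟨h1, h2⟩
    refine ⟨⟨f ⟨0, h1⟩, ⟨0, h1⟩, rfl⟩, ?_⟩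
    rintro _ ⟨i, rfl⟩
    exact h2 i
  · rintro ⟨⟨_, i, rfl⟩, h2⟩
    exact ⟨lt_of_le_of_lt (Nat.zero_le _) i.2, fun i => h2 _ ⟨i, rfl⟩⟩

/-- `G` unfolds to the sum `v` of the frozen proof. -/
private def T : Game → (ℕ × ℕ × ℕ × ℕ) → Prop
  | Game.mk _ f => fun v => (∀ i, ∃ v' ∈ opts v, T (f i) v') ∧ (∀ v' ∈ opts v, ∃ i, T (f i) v')

private theorem T_iff (G : Game) (v : ℕ × ℕ × ℕ × ℕ) : T G v ↔
    (∀ G' ∈ G.options, ∃ v' ∈ opts v, T G' v') ∧ (∀ v' ∈ opts v, ∃ G' ∈ G.options, T G' v') := by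
  obtain ⟨n, f⟩ := G
  constructor
  · rintro ⟨h1, h2⟩
    refine ⟨?_, fun v' hv' => ?_⟩
    · rintro _ ⟨i, rfl⟩
      exact h1 i
    · obtain ⟨i, hi⟩ := h2 v' hv'
      exact ⟨f i, ⟨i, rfl⟩, hi⟩
  · rintro ⟨h1, h2⟩
    refine ⟨fun i => h1 _ ⟨i, rfl⟩, fun v' hv' => ?_⟩
    obtain ⟨_, ⟨i, rfl⟩, hi⟩ := h2 v' hv'
    exact ⟨i, hi⟩

private theorem T_isP (G : Game) : ∀ v, T G v → (G.IsP ↔ ¬ NN v) := by
  induction G with
  | mk n f ih =>
    intro v hv
    obtain ⟨h1, h2⟩ := hv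
    rw [NN_iff v]
    constructor
    · rintro ⟨hn, hP⟩ (h0 | ⟨v', hv', hN⟩)
      · obtain ⟨v', hv', _⟩ := h1 ⟨0, hn⟩
        rw [h0] at hv'
        exact hv'
      · obtain ⟨i, hi⟩ := h2 v' hv'
        exact hP i ((ih i v' hi).2 hN)
    · intro hN
      rw [not_or] at hN
      obtain ⟨hne, hall⟩ := hN
      obtain ⟨v', hv'⟩ := Set.nonempty_iff_ne_empty.2 hne
      obtain ⟨i, _⟩ := h2 v' hv'
      refine ⟨lt_of_le_of_lt (Nat.zero_le _) i.2, fun i hP => ?_⟩
      obtain ⟨v', hv', hi⟩ := h1 i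
      exact hall ⟨v', hv', (ih i v' hi).1 hP⟩

private theorem T_add (G : Game) : ∀ (H : Game) (v w : ℕ × ℕ × ℕ × ℕ), T G v → T H w →
    T (G.add H) (v + w) := by
  induction G with
  | mk n f ihG =>
    intro H
    induction H with
    | mk m g ihH =>
      intro v w hv hw
      rw [T_iff, options_add, opts_add]
      have hv' := (T_iff _ _).1 hv
      have hw' := (T_iff _ _).1 hw
      constructor
      · rintro _ (⟨_, ⟨i, rfl⟩, rfl⟩ | ⟨_, ⟨j, rfl⟩, rfl⟩)
        · obtain ⟨v', hvv, hT⟩ := hv'.1 (f i) ⟨i, rfl⟩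
          exact ⟨v' + w, Or.inl ⟨v', hvv, rfl⟩, ihG i _ _ _ hT hw⟩
        · obtain ⟨w', hww, hT⟩ := hw'.1 (g j) ⟨j, rfl⟩
          exact ⟨v + w', Or.inr ⟨w', hww, rfl⟩, ihH j _ _ hv hT⟩
      · rintro _ (⟨v', hvv, rfl⟩ | ⟨w', hww, rfl⟩)
        · obtain ⟨_, ⟨i, rfl⟩, hT⟩ := hv'.2 v' hvv
          exact ⟨_, Or.inl ⟨_, ⟨i, rfl⟩, rfl⟩, ihG i _ _ _ hT hw⟩
        · obtain ⟨_, ⟨j, rfl⟩, hT⟩ := hw'.2 w' hww
          exact ⟨_, Or.inr ⟨_, ⟨j, rfl⟩, rfl⟩, ihH j _ _ hv hT⟩

/-- The options of a single summand. -/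
private theorem opts_unit {e : ℕ × ℕ × ℕ × ℕ}
    (he : e = (1, 0, 0, 0) ∨ e = (0, 1, 0, 0) ∨ e = (0, 0, 1, 0) ∨ e = (0, 0, 0, 1))
    (u : ℕ × ℕ × ℕ × ℕ) : u ∈ opts e ↔ ∃ m ∈ moves, m.1 = e ∧ u = m.2 := by
  constructor
  · rintro ⟨m, hm, x, hx, rfl⟩
    have hx0 : x = 0 ∧ m.1 = e := by
      obtain ⟨a, b, c, d⟩ := x
      rcases he with rfl | rfl | rfl | rfl <;> rcases units m hm with h | h | h | h <;>
        rw [h] at hx ⊢ <;>
        simp only [Prod.mk_add_mk, Prod.mk.injEq, Prod.mk_eq_zero, and_true, true_and] at hx ⊢ <;>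
        omega
    refine ⟨m, hm, hx0.2, ?_⟩
    rw [hx0.1, zero_add]
  · rintro ⟨m, hm, rfl, rfl⟩
    exact ⟨m, hm, 0, (zero_add _).symm, (zero_add _).symm⟩

/-- the zero game -/
private def z0 : Game := Game.mk 0 Fin.elim0
/-- the game s -/
private def gs : Game := Game.mk 1 (fun _ => z0)
/-- the game g -/
private def gg : Game := Game.mk 2 ![z0, gs]
/-- the game h -/
private def gh : Game := Game.mk 2 ![gs, gs.add (gg.add gg)]
/-- the game 3g + h -/
private def g3 : Game := (gg.add (gg.add gg)).add gh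
/-- the game K -/
private def gk : Game := Game.mk 4 ![g3, gs, gs.add gg, (gs.add gg).add g3]

private theorem T_z0 : T z0 (0, 0, 0, 0) := by
  refine ⟨fun i => Fin.elim0 i, fun v' hv' => ?_⟩
  rw [(opts_eq_empty 0 0 0 0).2 ⟨rfl, rfl, rfl, rfl⟩] at hv'
  exact absurd hv' (Set.notMem_empty _)

private theorem T_unit {e : ℕ × ℕ × ℕ × ℕ} {n : ℕ} {f : Fin n → Game}
    (he : e = (1, 0, 0, 0) ∨ e = (0, 1, 0, 0) ∨ e = (0, 0, 1, 0) ∨ e = (0, 0, 0, 1))
    (h1 : ∀ i, ∃ m ∈ moves, m.1 = e ∧ T (f i) m.2)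
    (h2 : ∀ m ∈ moves, m.1 = e → ∃ i, T (f i) m.2) : T (Game.mk n f) e := by
  refine ⟨fun i => ?_, fun v' hv' => ?_⟩
  · obtain ⟨m, hm, hme, hT⟩ := h1 i
    exact ⟨m.2, (opts_unit he _).2 ⟨m, hm, hme, rfl⟩, hT⟩
  · obtain ⟨m, hm, hme, rfl⟩ := (opts_unit he _).1 hv'
    exact h2 m hm hme

private theorem T_gs : T gs (1, 0, 0, 0) := by
  refine T_unit (Or.inl rfl) (fun _ => ⟨((1, 0, 0, 0), (0, 0, 0, 0)), by simp [moves], rfl, T_z0⟩) ?_
  intro m hm hme
  refine ⟨0, ?_⟩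
  have : ∀ m ∈ moves, m.1 = (1, 0, 0, 0) → m.2 = (0, 0, 0, 0) := by decide
  rw [this m hm hme]
  exact T_z0

private theorem T_gg : T gg (0, 1, 0, 0) := by
  refine T_unit (Or.inr (Or.inl rfl)) (fun i => ?_) ?_
  · fin_cases i
    · exact ⟨((0, 1, 0, 0), (0, 0, 0, 0)), by simp [moves], rfl, T_z0⟩
    · exact ⟨((0, 1, 0, 0), (1, 0, 0, 0)), by simp [moves], rfl, T_gs⟩
  · intro m hm hme
    have : ∀ m ∈ moves, m.1 = (0, 1, 0, 0) → m.2 = (0, 0, 0, 0) ∨ m.2 = (1, 0, 0, 0) := by decide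
    rcases this m hm hme with h | h
    · exact ⟨0, by rw [h]; exact T_z0⟩
    · exact ⟨1, by rw [h]; exact T_gs⟩

private theorem T_gh : T gh (0, 0, 1, 0) := by
  have h1 : T (gs.add (gg.add gg)) (1, 2, 0, 0) := T_add _ _ _ _ T_gs (T_add _ _ _ _ T_gg T_gg)
  refine T_unit (Or.inr (Or.inr (Or.inl rfl))) (fun i => ?_) ?_
  · fin_cases i
    · exact ⟨((0, 0, 1, 0), (1, 0, 0, 0)), by simp [moves], rfl, T_gs⟩
    · exact ⟨((0, 0, 1, 0), (1, 2, 0, 0)), by simp [moves], rfl, h1⟩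
  · intro m hm hme
    have : ∀ m ∈ moves, m.1 = (0, 0, 1, 0) → m.2 = (1, 0, 0, 0) ∨ m.2 = (1, 2, 0, 0) := by decide
    rcases this m hm hme with h | h
    · exact ⟨0, by rw [h]; exact T_gs⟩
    · exact ⟨1, by rw [h]; exact h1⟩

private theorem T_gk : T gk (0, 0, 0, 1) := by
  have h1 : T g3 (0, 3, 1, 0) :=
    T_add _ _ _ _ (T_add _ _ _ _ T_gg (T_add _ _ _ _ T_gg T_gg)) T_gh
  have h2 : T (gs.add gg) (1, 1, 0, 0) := T_add _ _ _ _ T_gs T_gg
  have h3 : T ((gs.add gg).add g3) (1, 4, 1, 0) := T_add _ _ _ _ h2 h1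
  refine T_unit (Or.inr (Or.inr (Or.inr rfl))) (fun i => ?_) ?_
  · fin_cases i
    · exact ⟨((0, 0, 0, 1), (0, 3, 1, 0)), by simp [moves], rfl, h1⟩
    · exact ⟨((0, 0, 0, 1), (1, 0, 0, 0)), by simp [moves], rfl, T_gs⟩
    · exact ⟨((0, 0, 0, 1), (1, 1, 0, 0)), by simp [moves], rfl, h2⟩
    · exact ⟨((0, 0, 0, 1), (1, 4, 1, 0)), by simp [moves], rfl, h3⟩
  · intro m hm hme
    have : ∀ m ∈ moves, m.1 = (0, 0, 0, 1) → m.2 = (0, 3, 1, 0) ∨ m.2 = (1, 0, 0, 0) ∨
      m.2 = (1, 1, 0, 0) ∨ m.2 = (1, 4, 1, 0) := by decide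
    rcases this m hm hme with h | h | h | h
    · exact ⟨0, by rw [h]; exact h1⟩
    · exact ⟨1, by rw [h]; exact T_gs⟩
    · exact ⟨2, by rw [h]; exact h2⟩
    · exact ⟨3, by rw [h]; exact h3⟩

private theorem closed_generated (K : Game) : Closed (generated K) where
  add := fun G hG H hH A hA hK => hA.add G (hG A hA hK) H (hH A hA hK)
  opt := fun G hG G' hG' A hA hK => hA.opt G (hG A hA hK) G' hG'

private theorem mem_generated (K : Game) : K ∈ generated K := fun _ _ hK => hK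

/-- every game of the set has a type -/
private theorem exists_type (G : Game) (hG : G ∈ generated gk) : ∃ v, T G v := by
  refine hG {G | ∃ v, T G v} ⟨?_, ?_⟩ ⟨_, T_gk⟩
  · rintro G ⟨v, hv⟩ H ⟨w, hw⟩
    exact ⟨v + w, T_add _ _ _ _ hv hw⟩
  · rintro G ⟨v, hv⟩ G' hG'
    obtain ⟨v', _, h⟩ := ((T_iff _ _).1 hv).1 G' hG'
    exact ⟨v', h⟩

/-- the realised types -/
private def Real (v : ℕ × ℕ × ℕ × ℕ) : Prop := ∃ G ∈ generated gk, T G v

private theorem real_opt {v v' : ℕ × ℕ × ℕ × ℕ} (h : Real v) (hv' : v' ∈ opts v) : Real v' := by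
  obtain ⟨G, hG, hT⟩ := h
  obtain ⟨G', hG', hT'⟩ := ((T_iff _ _).1 hT).2 v' hv'
  exact ⟨G', (closed_generated gk).opt G hG G' hG', hT'⟩

private theorem real_add {v w : ℕ × ℕ × ℕ × ℕ} (hv : Real v) (hw : Real w) : Real (v + w) := by
  obtain ⟨G, hG, hT⟩ := hv
  obtain ⟨H, hH, hT'⟩ := hw
  exact ⟨G.add H, (closed_generated gk).add G hG H hH, T_add _ _ _ _ hT hT'⟩

private theorem real_all (v : ℕ × ℕ × ℕ × ℕ) : Real v := by
  have hk : Real (0, 0, 0, 1) := ⟨gk, mem_generated gk, T_gk⟩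
  have hs : Real (1, 0, 0, 0) := real_opt hk ⟨((0, 0, 0, 1), (1, 0, 0, 0)), by simp [moves], 0, rfl, rfl⟩
  have h0 : Real (0, 0, 0, 0) := real_opt hs ⟨((1, 0, 0, 0), (0, 0, 0, 0)), by simp [moves], 0, rfl, rfl⟩
  have hsg : Real (1, 1, 0, 0) := real_opt hk ⟨((0, 0, 0, 1), (1, 1, 0, 0)), by simp [moves], 0, rfl, rfl⟩
  have hg : Real (0, 1, 0, 0) :=
    real_opt hsg ⟨((1, 0, 0, 0), (0, 0, 0, 0)), by simp [moves], (0, 1, 0, 0), rfl, rfl⟩
  have h3 : Real (0, 3, 1, 0) := real_opt hk ⟨((0, 0, 0, 1), (0, 3, 1, 0)), by simp [moves], 0, rfl, rfl⟩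
  have h2 : Real (0, 2, 1, 0) :=
    real_opt h3 ⟨((0, 1, 0, 0), (0, 0, 0, 0)), by simp [moves], (0, 2, 1, 0), rfl, rfl⟩
  have h1 : Real (0, 1, 1, 0) :=
    real_opt h2 ⟨((0, 1, 0, 0), (0, 0, 0, 0)), by simp [moves], (0, 1, 1, 0), rfl, rfl⟩
  have hh : Real (0, 0, 1, 0) :=
    real_opt h1 ⟨((0, 1, 0, 0), (0, 0, 0, 0)), by simp [moves], (0, 0, 1, 0), rfl, rfl⟩
  obtain ⟨a, b, c, d⟩ := v
  have ha : ∀ a : ℕ, Real (a, 0, 0, 0) := by
    intro a
    induction a with
    | zero => exact h0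
    | succ a ih => exact real_add ih hs
  have hb : ∀ b : ℕ, Real (a, b, 0, 0) := by
    intro b
    induction b with
    | zero => exact ha a
    | succ b ih => exact real_add ih hg
  have hc : ∀ c : ℕ, Real (a, b, c, 0) := by
    intro c
    induction c with
    | zero => exact hb b
    | succ c ih => exact real_add ih hh
  induction d with
  | zero => exact hc c
  | succ d ih => exact real_add ih hk

/-- **The maximal subgroups of a finite misère quotient may avoid the P-portion.** There is a finite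
impartial game `K` such that, for the smallest set `A` of games that contains `K` and is closed
under sums and options, the misère quotient of `A` is finite (all games of `A` are indistinguishable
from games of a finite set `F`), and there is an idempotent class `[E]` such that no `X ∈ A` whose
class lies in the maximal subgroup at `[E]` (that is, `X + E ≡ X` and `X + Y ≡ E` for some `Y ∈ A`)
is a misère P-position. -/
theorem result : ∃ K : Game, Closed (generated K) ∧ K ∈ generated K ∧ K.options.Nonempty ∧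
    (∃ F : Finset Game, F.card ≤ 90 ∧ ∀ G ∈ generated K,
      ∃ H ∈ F, H ∈ generated K ∧ Indist (generated K) G H) ∧
    ∃ E ∈ generated K, Indist (generated K) (E.add E) E ∧
      ∀ X ∈ generated K, Indist (generated K) (X.add E) X →
        (∃ Y ∈ generated K, Indist (generated K) (X.add Y) E) → ¬ X.IsP := by
  classical
  have hind : ∀ {G H : Game} {v w : ℕ × ℕ × ℕ × ℕ}, T G v → T H w →
      (Indist (generated gk) G H ↔ ∀ z, NN (v + z) ↔ NN (w + z)) := by
    intro G H v w hv hw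
    constructor
    · intro h z
      obtain ⟨Z, hZ, hTZ⟩ := real_all z
      have h1 := h Z hZ
      rw [T_isP _ _ (T_add _ _ _ _ hv hTZ), T_isP _ _ (T_add _ _ _ _ hw hTZ)] at h1
      exact not_iff_not.1 h1
    · intro h Z hZ
      obtain ⟨z, hTZ⟩ := exists_type Z hZ
      rw [T_isP _ _ (T_add _ _ _ _ hv hTZ), T_isP _ _ (T_add _ _ _ _ hw hTZ)]
      exact not_iff_not.2 (h z)
  refine ⟨gk, closed_generated gk, mem_generated gk, ⟨g3, 0, rfl⟩, ?_, ?_⟩
  · choose R hR hTR using real_all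
    refine ⟨((Finset.range 2 ×ˢ (Finset.range 5 ×ˢ (Finset.range 3 ×ˢ Finset.range 3)))).image R,
      ?_, ?_⟩
    · refine Finset.card_image_le.trans ?_
      simp [Finset.card_product]
    · intro G hG
      obtain ⟨v, hv⟩ := exists_type G hG
      obtain ⟨c1, c2, c3, c4⟩ := cap_lt v
      refine ⟨R (cap v), ?_, hR _, (hind hv (hTR _)).2 fun z => (NN_cap v z).symm⟩
      rw [Finset.mem_image]
      refine ⟨cap v, ?_, rfl⟩
      simp only [Finset.mem_product, Finset.mem_range]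
      exact ⟨c1, c2, c3, c4⟩
  · obtain ⟨E, hE, hTE⟩ := real_all (0, 0, 0, 2)
    refine ⟨E, hE, (hind (T_add _ _ _ _ hTE hTE) hTE).2 NN_idem, ?_⟩
    rintro X hX h1 ⟨Y, hY, h2⟩ hP
    obtain ⟨x, hx⟩ := exists_type X hX
    obtain ⟨y, hy⟩ := exists_type Y hY
    have h3 := (hind (T_add _ _ _ _ hx hTE) hx).1 h1
    have h4 := (hind (T_add _ _ _ _ hx hy) hTE).1 h2
    exact (T_isP _ _ hx).1 hP (core x y h3 h4)

end Pool.Agent.Results.MP_1dd9c6_co.OneGenerator
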